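import Pool.Agent.K7.H41.OP.Stm

set_option autoImplicit false

/-!
# Project OP, jobs HS and MOD
-/

namespace Pool.Agent.K7.H35.OP

open Pool.Agent.K7.H41.OP

/-- a subgroup whose cosets are separated by a map to a finite set has finite index -/
theorem cos {G X : Type} [Group G] [Finite X] (H : Subgroup G) (f : G → X)
    (h : ∀ g k, f g = f k → g⁻¹ * k ∈ H) : H.FiniteIndex := by
  have hinj : Function.Injective (fun x : G ⧸ H => f x.out) := by
    intro x y hxy
    have h1 := h _ _ hxy
    rw [← QuotientGroup.out_eq' x, ← QuotientGroup.out_eq' y]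
    exact QuotientGroup.eq.2 h1
  have : Finite (G ⧸ H) := Finite.of_injective _ hinj
  exact Subgroup.finiteIndex_of_finite_quotient

/-- a finitely generated group has only finitely many homomorphisms to a finite group -/
theorem finite_hom {G S : Type} [Group G] [Group S] [Finite S] (hG : Group.FG G) :
    Finite (G →* S) := by
  obtain ⟨T', hT'⟩ := hG.out
  have hinj : Function.Injective (fun (f : G →* S) (x : (T' : Set G)) => f x) := by
    intro f g hfg
    refine MonoidHom.eq_of_eqOn_dense hT' fun x hx => ?_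
    exact congrFun hfg ⟨x, hx⟩
  exact Finite.of_injective _ hinj

theorem hs : StHS := by
  intro G _ hG S _ _
  have := finite_hom (S := S) hG
  let H : Subgroup (MulAut G) :=
    { carrier := {φ | ∀ f : G →* S, ∃ s : S, ∀ g, f (φ g) = s * f g * s⁻¹}
      one_mem' := fun f => ⟨1, fun g => by simp⟩
      mul_mem' := by
        intro φ ψ hφ hψ f
        obtain ⟨s, hs⟩ := hφ f
        obtain ⟨t, ht⟩ := hψ f
        refine ⟨s * t, fun g => ?_⟩
        rw [MulAut.mul_apply, hs, ht]
        group
      inv_mem' := by
        intro φ hφ f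
        obtain ⟨s, hs⟩ := hφ f
        refine ⟨s⁻¹, fun g => ?_⟩
        have h1 := hs (φ⁻¹ g)
        rw [MulAut.apply_inv_self] at h1
        rw [h1]
        group }
  refine ⟨H, cos H (fun φ (f : G →* S) => f.comp (φ : G ≃* G).toMonoidHom) ?_, ?_,
    fun φ hφ => hφ⟩
  · intro φ ψ h f
    refine ⟨1, fun g => ?_⟩
    have h1 := DFunLike.congr_fun (congrFun h (f.comp (φ⁻¹ : G ≃* G).toMonoidHom)) g
    have h2 : f (φ⁻¹ (φ g)) = f (φ⁻¹ (ψ g)) := h1
    rw [MulAut.inv_apply_self] at h2
    rw [MulAut.mul_apply, ← h2]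
    simp
  · rintro _ ⟨x, rfl⟩ f
    refine ⟨f x, fun g => ?_⟩
    rw [MulAut.conj_apply, map_mul, map_mul, map_inv]

theorem mod : StMod := by
  intro G _ hG m hm
  have hsurj : Function.Surjective (Abelianization.of : G →* Abelianization G) := fun x =>
    QuotientGroup.mk_surjective x
  let q : G →* (Abelianization G ⧸ (powMonoidHom m : Abelianization G →* Abelianization G).range) :=
    (QuotientGroup.mk' _).comp Abelianization.of
  have hq : Function.Surjective q :=
    (QuotientGroup.mk'_surjective _).comp hsurj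
  have hfg : Group.FG (Abelianization G ⧸
      (powMonoidHom m : Abelianization G →* Abelianization G).range) :=
    Group.fg_of_surjective hq
  have hker : ∀ x, q x = 1 ↔ Pm G m x := by
    intro x
    have h1 : q x = 1 ↔ ∃ y : Abelianization G, y ^ m = Abelianization.of x := by
      show ((Abelianization.of x : Abelianization G) :
        Abelianization G ⧸ (powMonoidHom m : Abelianization G →* Abelianization G).range) = 1 ↔ _
      rw [QuotientGroup.eq_one_iff]
      rfl
    rw [h1]
    have h2 : ∀ y : G, (Abelianization.of y) ^ m = Abelianization.of x ↔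
        x * (y ^ m)⁻¹ ∈ commutator G := by
      intro y
      rw [← Abelianization.ker_of, MonoidHom.mem_ker, map_mul, map_inv, map_pow, mul_inv_eq_one,
        eq_comm]
    constructor
    · rintro ⟨y, hy⟩
      obtain ⟨y, rfl⟩ := hsurj y
      exact ⟨y, (h2 y).1 hy⟩
    · rintro ⟨y, hy⟩
      exact ⟨_, (h2 y).2 hy⟩
  have hfin : Finite (Abelianization G ⧸
      (powMonoidHom m : Abelianization G →* Abelianization G).range) := by
    refine CommGroup.finite_of_fg_isMulTorsion _ fun x => ?_
    obtain ⟨x, rfl⟩ := hq x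
    rw [isOfFinOrder_iff_pow_eq_one]
    refine ⟨m, hm, ?_⟩
    rw [← map_pow, hker]
    exact ⟨x, by simp⟩
  have := finite_hom (S := (Abelianization G ⧸
      (powMonoidHom m : Abelianization G →* Abelianization G).range)) hG
  have hcom : ∀ (φ : MulAut G) (x : G), Pm G m x → Pm G m (φ x) := by
    rintro φ x ⟨y, hy⟩
    refine ⟨φ y, ?_⟩
    have h1 : φ (x * (y ^ m)⁻¹) ∈ commutator G := by
      have h2 : (commutator G).Characteristic := inferInstance
      have h3 := h2.fixed φ
      rw [← h3] at hy
      exact hy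
    rwa [map_mul, map_inv, map_pow] at h1
  let H : Subgroup (MulAut G) :=
    { carrier := {φ | ∀ g, q (φ g) = q g}
      one_mem' := fun g => by simp
      mul_mem' := by
        intro φ ψ hφ hψ g
        rw [MulAut.mul_apply]
        exact (hφ _).trans (hψ g)
      inv_mem' := by
        intro φ hφ g
        have h1 := hφ (φ⁻¹ g)
        rw [MulAut.apply_inv_self] at h1
        exact h1.symm }
  have hH : ∀ φ, φ ∈ H ↔ ∀ g, Pm G m (φ g * g⁻¹) := by
    intro φ
    refine forall_congr' fun g => ?_
    rw [← hker, map_mul, map_inv, mul_inv_eq_one]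
  refine ⟨H, cos H (fun φ => q.comp (φ : G ≃* G).toMonoidHom) ?_, ?_, hH⟩
  · intro φ ψ h
    rw [hH]
    intro g
    have h1 : q (φ g) = q (ψ g) := DFunLike.congr_fun h g
    have h2 : Pm G m (ψ g * (φ g)⁻¹) := by
      rw [← hker, map_mul, map_inv, h1, mul_inv_cancel]
    have h3 := hcom φ⁻¹ _ h2
    rwa [map_mul, map_inv, MulAut.inv_apply_self] at h3
  · rintro _ ⟨x, rfl⟩ g
    rw [MulAut.conj_apply, map_mul, map_mul, map_inv, mul_comm (q x), mul_assoc, mul_inv_cancel,
      mul_one]

end Pool.Agent.K7.H35.OP
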